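import Pool.Agent.Lib.MP_c534e4_co.H9.Far

/-! The Kahn–Saks conjecture with literal definitions and weaker hypotheses: finite partial orders in
which one element is incomparable to many others, or in which two incomparable elements are at large
mean distance, have almost balanced pairs (helper9, on top of the proof of helper26). -/

set_option autoImplicit false

namespace Pool.Agent.Results.MP_c534e4_co.BalancedPairs

universe u

/-- The linear extensions of the partial order on `X`: the linear orders on `X` containing its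
relations. -/
def linExt (X : Type u) [PartialOrder X] : Set (X → X → Prop) :=
  {r | IsLinearOrder X r ∧ ∀ x y, x ≤ y → r x y}

/-- `P(x < y)` for `x ≠ y`: the proportion of the linear extensions in which `x` comes before `y`. -/
noncomputable def prob {X : Type u} [PartialOrder X] (x y : X) : ℝ :=
  ({r ∈ linExt X | r x y}.ncard : ℝ) / ((linExt X).ncard : ℝ)

/-- `δ(P)`: the maximum over `x ≠ y` of `min (P(x < y), P(y < x))`. -/
noncomputable def delta (X : Type u) [PartialOrder X] : ℝ :=
  sSup {t | ∃ x y : X, x ≠ y ∧ t = min (prob x y) (prob y x)}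

/-- The width: the largest size of an antichain. -/
noncomputable def width (X : Type u) [PartialOrder X] : ℕ :=
  sSup {n | ∃ s : Finset X, IsAntichain (· ≤ ·) (s : Set X) ∧ s.card = n}

/-- The number of elements that come before `x` in the order `r`. -/
noncomputable def height {X : Type u} (r : X → X → Prop) (x : X) : ℕ :=
  {z | z ≠ x ∧ r z x}.ncard

/-- The average over the linear extensions of the distance of `x` and `y` in the linear extension. -/
noncomputable def meanDist {X : Type u} [PartialOrder X] (x y : X) : ℝ :=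
  (∑ᶠ r ∈ linExt X, |(height r x : ℝ) - (height r y : ℝ)|) / ((linExt X).ncard : ℝ)

theorem height_lt {X : Type u} [Finite X] {r : X → X → Prop} (hr : IsLinearOrder X r) {x y : X} (hxy : x ≠ y)
    (h : r x y) : height r x < height r y := by
  apply Set.ncard_lt_ncard _ (Set.toFinite _)
  refine ⟨fun z hz => ?_, fun hsub => ?_⟩
  · obtain ⟨hz1, hz2⟩ := hz
    refine ⟨?_, hr.trans _ _ _ hz2 h⟩
    rintro rfl
    exact hz1 (hr.antisymm _ _ hz2 h)
  · exact (hsub (show x ∈ {z | z ≠ y ∧ r z y} from ⟨hxy, h⟩)).1 rfl

theorem height_lt_card {X : Type u} [Finite X] (r : X → X → Prop) (x : X) : height r x < Nat.card X := by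
  rw [← Set.ncard_univ]
  apply Set.ncard_lt_ncard _ (Set.toFinite _)
  refine ⟨fun _ _ => trivial, fun hsub => ?_⟩
  exact (hsub (Set.mem_univ x)).1 rfl

section transfer

variable {X : Type u} [PartialOrder X] {α : Type} [Fintype α] [PartialOrder α] (e : X ≃o α)

/-- the relation of a position function -/
def relOf (σ : α ≃ Fin (Fintype.card α)) : X → X → Prop := fun x y => σ (e x) ≤ σ (e y)

theorem relOf_mem (σ : KS.LinExt α) : relOf e σ.1 ∈ linExt X := by
  refine ⟨{ refl := fun x => le_refl (σ.1 (e x)), trans := fun x y z h1 h2 => le_trans h1 h2,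
            antisymm := fun x y h1 h2 => ?_, total := fun x y => le_total (σ.1 (e x)) (σ.1 (e y)) },
    fun x y h => ?_⟩
  · exact e.injective (σ.1.injective (le_antisymm h1 h2))
  · exact σ.2.monotone (e.monotone h)

theorem height_relOf (σ : α ≃ Fin (Fintype.card α)) (x : X) :
    height (relOf e σ) x = (σ (e x) : ℕ) := by
  have hinj : Function.Injective (fun z : X => σ (e z)) := σ.injective.comp e.injective
  have himg : (fun z : X => σ (e z)) '' {z | z ≠ x ∧ relOf e σ z x} = Set.Iio (σ (e x)) := by
    ext i
    constructor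
    · rintro ⟨z, ⟨hz1, hz2⟩, rfl⟩
      exact lt_of_le_of_ne hz2 (fun h => hz1 (hinj h))
    · intro hi
      refine ⟨e.symm (σ.symm i), ⟨?_, ?_⟩, by simp⟩
      · rintro rfl
        simp at hi
      · show σ (e (e.symm (σ.symm i))) ≤ _
        simpa using (Set.mem_Iio.1 hi).le
  unfold height
  rw [← Set.ncard_image_of_injective _ hinj, himg, Set.ncard_eq_toFinset_card']
  simp

theorem relOf_bij : Function.Bijective
    (fun σ : KS.LinExt α => (⟨relOf e σ.1, relOf_mem e σ⟩ : linExt X)) := by
  have hfin : Finite X := Finite.of_equiv α e.symm.toEquiv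
  constructor
  · intro σ τ h
    have h1 : relOf e σ.1 = relOf e τ.1 := congrArg Subtype.val h
    apply Subtype.ext
    apply Equiv.ext
    intro a
    apply Fin.ext
    have h2 := height_relOf e σ.1 (e.symm a)
    have h3 := height_relOf e τ.1 (e.symm a)
    rw [h1, h3] at h2
    simpa using h2.symm
  · rintro ⟨r, hr, hext⟩
    have hcard : Nat.card X = Fintype.card α := by
      rw [Nat.card_congr e.toEquiv, Nat.card_eq_fintype_card]
    let f : α → Fin (Fintype.card α) := fun a =>
      ⟨height r (e.symm a), hcard ▸ height_lt_card r (e.symm a)⟩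
    have hmono : ∀ x y : X, x ≠ y → r x y → f (e x) < f (e y) := by
      intro x y hxy h
      rw [Fin.lt_def]
      simp only [f, OrderIso.symm_apply_apply]
      exact height_lt hr hxy h
    have hf : Function.Injective f := by
      intro a b hab
      by_contra hne
      have hne' : e.symm a ≠ e.symm b := fun h => hne (e.symm.injective h)
      rcases hr.total (e.symm a) (e.symm b) with h | h
      · have := hmono _ _ hne' h
        simp only [OrderIso.apply_symm_apply] at this
        exact absurd hab this.ne
      · have := hmono _ _ hne'.symm h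
        simp only [OrderIso.apply_symm_apply] at this
        exact absurd hab this.ne'
    have hb : Function.Bijective f := by
      rw [Fintype.bijective_iff_injective_and_card]
      exact ⟨hf, by simp⟩
    refine ⟨⟨Equiv.ofBijective f hb, ?_⟩, ?_⟩
    · intro a b hab
      have h1 : e.symm a < e.symm b := e.symm.strictMono hab
      have h2 := hmono _ _ h1.ne (hext _ _ h1.le)
      simpa using h2
    · apply Subtype.ext
      funext x y
      apply propext
      show f (e x) ≤ f (e y) ↔ r x y
      constructor
      · intro h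
        by_contra hn
        rcases hr.total x y with h' | h'
        · exact hn h'
        · have hne : y ≠ x := by
            rintro rfl
            exact hn h'
          exact absurd (hmono _ _ hne h') (not_lt.2 h)
      · intro h
        by_cases hxy : x = y
        · rw [hxy]
        · exact (hmono _ _ hxy h).le

include e in
theorem ncard_linExt : ((linExt X).ncard : ℕ) =
    Nat.card {σ : α ≃ Fin (Fintype.card α) // StrictMono ⇑σ} := by
  rw [← Nat.card_coe_set_eq]
  exact (Nat.card_congr (Equiv.ofBijective _ (relOf_bij e))).symm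

theorem ncard_before {x y : X} (hxy : x ≠ y) : ({r ∈ linExt X | r x y}.ncard : ℕ) =
    Nat.card {σ : α ≃ Fin (Fintype.card α) // StrictMono ⇑σ ∧ σ (e x) < σ (e y)} := by
  have himg : {r ∈ linExt X | r x y} =
      (fun σ : KS.LinExt α => relOf e σ.1) '' {σ | σ.1 (e x) < σ.1 (e y)} := by
    ext r
    constructor
    · rintro ⟨hr, h⟩
      obtain ⟨σ, hσ⟩ := (relOf_bij e).2 ⟨r, hr⟩
      have hσ' : relOf e σ.1 = r := congrArg Subtype.val hσ
      refine ⟨σ, ?_, hσ'⟩
      have h1 : σ.1 (e x) ≤ σ.1 (e y) := by
        rw [← hσ'] at h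
        exact h
      exact lt_of_le_of_ne h1 (fun h2 => hxy (e.injective (σ.1.injective h2)))
    · rintro ⟨σ, hσ, rfl⟩
      exact ⟨relOf_mem e σ, le_of_lt hσ⟩
  have hinj : Function.Injective (fun σ : KS.LinExt α => relOf e σ.1) := by
    intro σ τ h
    exact (relOf_bij e).1 (Subtype.ext h)
  rw [himg, Set.ncard_image_of_injective _ hinj, ← Nat.card_coe_set_eq]
  exact Nat.card_congr (Equiv.subtypeSubtypeEquivSubtypeInter
    (fun σ : α ≃ Fin (Fintype.card α) => StrictMono ⇑σ) (fun σ => σ (e x) < σ (e y)))

theorem meanDist_eq (x y : X) : meanDist x y = KS.avgDist (e x) (e y) := by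
  unfold meanDist KS.avgDist
  rw [ncard_linExt e, Nat.card_eq_fintype_card, div_eq_inv_mul]
  congr 1
  rw [← finsum_set_coe_eq_finsum_mem (s := linExt X)
    (f := fun r => |(height r x : ℝ) - (height r y : ℝ)|)]
  rw [← finsum_comp_equiv (Equiv.ofBijective _ (relOf_bij e)), finsum_eq_sum_of_fintype]
  apply Finset.sum_congr rfl
  intro σ _
  show |(height (relOf e σ.1) x : ℝ) - (height (relOf e σ.1) y : ℝ)| = _
  rw [height_relOf, height_relOf]

end transfer

/-- For every `ε > 0` there is `W` such that every finite partial order of width at least `W`, or,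
more generally, with an element incomparable to at least `W` others, or with two incomparable
elements whose mean distance in a linear extension is at least `W`, has
`1 / 2 - ε ≤ δ(P) ≤ 1 / 2`. -/
theorem result (ε : ℝ) (hε : 0 < ε) : ∃ W : ℕ, ∀ (X : Type u) [Finite X] [PartialOrder X],
    (W ≤ width X ∨ (∃ x : X, W ≤ {y : X | ¬ x ≤ y ∧ ¬ y ≤ x}.ncard) ∨
      ∃ x y : X, ¬ x ≤ y ∧ ¬ y ≤ x ∧ (W : ℝ) ≤ meanDist x y) →
    1 / 2 - ε ≤ delta X ∧ delta X ≤ 1 / 2 := by
  classical
  obtain ⟨W, hW⟩ := KS.far_pair ε hε
  refine ⟨W + 1, ?_⟩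
  intro X _ _ hyp
  have hprob0 : ∀ x y : X, 0 ≤ prob x y := fun x y => by unfold prob; positivity
  have hfinrel : (linExt X).Finite := Set.toFinite _
  constructor
  · -- the lower bound
    have : Fintype X := Fintype.ofFinite X
    obtain ⟨α, iF, iP, ⟨e⟩⟩ : ∃ (α : Type) (_ : Fintype α) (_ : PartialOrder α), Nonempty (X ≃o α) :=
      ⟨Shrink.{0} X, Fintype.ofEquiv X (equivShrink.{0} X), inferInstance,
        ⟨orderIsoShrink.{0} X⟩⟩
    -- the hypothesis for the copy
    have key : ((∃ (x : α) (s : Finset α), (∀ y ∈ s, ¬ x ≤ y ∧ ¬ y ≤ x) ∧ W ≤ s.card) ∨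
        ∃ x y : α, ¬ x ≤ y ∧ ¬ y ≤ x ∧ (W : ℝ) ≤ KS.avgDist x y) := by
      have one : ∀ (x : X) (s : Finset X), (∀ y ∈ s, ¬ x ≤ y ∧ ¬ y ≤ x) → W ≤ s.card →
          ∃ (x : α) (s : Finset α), (∀ y ∈ s, ¬ x ≤ y ∧ ¬ y ≤ x) ∧ W ≤ s.card := by
        intro x s hs hc
        refine ⟨e x, s.map e.toEquiv.toEmbedding, ?_, by rwa [Finset.card_map]⟩
        intro y hy
        obtain ⟨z, hz, rfl⟩ := Finset.mem_map.1 hy
        have := hs z hz
        simpa using this
      rcases hyp with h | ⟨x, hx⟩ | ⟨x, y, hxy, hyx, h⟩
      · left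
        have hne : {n | ∃ s : Finset X, IsAntichain (· ≤ ·) (s : Set X) ∧ s.card = n}.Nonempty :=
          ⟨0, ∅, by simp, by simp⟩
        have hbd : BddAbove {n | ∃ s : Finset X, IsAntichain (· ≤ ·) (s : Set X) ∧ s.card = n} := by
          refine ⟨Fintype.card X, ?_⟩
          rintro n ⟨s, -, rfl⟩
          exact Finset.card_le_univ s
        obtain ⟨s, hs, hc⟩ := Nat.sSup_mem hne hbd
        have hc' : W + 1 ≤ s.card := by rw [hc]; exact h
        have hpos : 0 < s.card := by omega
        obtain ⟨x, hx⟩ := Finset.card_pos.1 hpos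
        refine one x (s.erase x) ?_ ?_
        · intro y hy
          obtain ⟨hne, hys⟩ := Finset.mem_erase.1 hy
          exact ⟨fun h => hs hx hys hne.symm h, fun h => hs hys hx hne h⟩
        · rw [Finset.card_erase_of_mem hx]
          omega
      · left
        refine one x (Finset.univ.filter fun y => ¬ x ≤ y ∧ ¬ y ≤ x) ?_ ?_
        · intro y hy
          exact (Finset.mem_filter.1 hy).2
        · rw [Set.ncard_eq_toFinset_card'] at hx
          have h2 : ({y : X | ¬ x ≤ y ∧ ¬ y ≤ x}.toFinset) =
              Finset.univ.filter fun y => ¬ x ≤ y ∧ ¬ y ≤ x := by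
            ext y
            simp
          rw [h2] at hx
          omega
      · right
        refine ⟨e x, e y, by simpa using hxy, by simpa using hyx, ?_⟩
        rw [← meanDist_eq e]
        push_cast at h
        linarith
    obtain ⟨a, b, h1, h2⟩ := hW α key
    have hN : 0 < (((linExt X).ncard : ℕ) : ℝ) := by
      rw [ncard_linExt e, Nat.card_eq_fintype_card]
      exact_mod_cast Fintype.card_pos (α := KS.LinExt α)
    by_cases hab : a = b
    · subst hab
      have h3 : (Nat.card {σ : α ≃ Fin (Fintype.card α) // StrictMono ⇑σ ∧ σ a < σ a} : ℝ) = 0 := by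
        have : IsEmpty {σ : α ≃ Fin (Fintype.card α) // StrictMono ⇑σ ∧ σ a < σ a} :=
          ⟨fun σ => absurd σ.2.2 (lt_irrefl _)⟩
        simp
      rw [h3, ← ncard_linExt e] at h1
      have h4 : 1 / 2 - ε ≤ 0 := by
        by_contra hcon
        push Not at hcon
        have := mul_pos hcon hN
        linarith
      refine h4.trans (Real.sSup_nonneg ?_)
      rintro t ⟨x, y, -, rfl⟩
      exact le_min (hprob0 _ _) (hprob0 _ _)
    · obtain ⟨x, rfl⟩ := e.surjective a
      obtain ⟨y, rfl⟩ := e.surjective b
      have hxy : x ≠ y := fun h => hab (by rw [h])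
      rw [← ncard_linExt e, ← ncard_before e hxy] at h1
      rw [← ncard_linExt e, ← ncard_before e hxy.symm] at h2
      have hmem : min (prob x y) (prob y x) ∈
          {t | ∃ x y : X, x ≠ y ∧ t = min (prob x y) (prob y x)} := ⟨x, y, hxy, rfl⟩
      have hbdd : BddAbove {t | ∃ x y : X, x ≠ y ∧ t = min (prob x y) (prob y x)} := by
        have hfin : (Set.range fun q : X × X => min (prob q.1 q.2) (prob q.2 q.1)).Finite :=
          Set.finite_range _
        refine (hfin.subset ?_).bddAbove
        rintro t ⟨x, y, -, rfl⟩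
        exact ⟨(x, y), rfl⟩
      refine le_trans (le_min ?_ ?_) (le_csSup hbdd hmem)
      · unfold prob
        rw [le_div_iff₀ hN]
        exact h1
      · unfold prob
        rw [le_div_iff₀ hN]
        exact h2
  · -- the upper bound
    apply Real.sSup_le _ (by norm_num)
    rintro t ⟨x, y, hxy, rfl⟩
    have hdisj : Disjoint {r ∈ linExt X | r x y} {r ∈ linExt X | r y x} := by
      rw [Set.disjoint_left]
      rintro r ⟨hr, h1⟩ ⟨-, h2⟩
      exact hxy (hr.1.antisymm _ _ h1 h2)
    have hsum : {r ∈ linExt X | r x y}.ncard + {r ∈ linExt X | r y x}.ncard ≤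
        (linExt X).ncard := by
      rw [← Set.ncard_union_eq hdisj (hfinrel.subset fun r hr => hr.1)
        (hfinrel.subset fun r hr => hr.1)]
      apply Set.ncard_le_ncard _ hfinrel
      rintro r (h | h)
      · exact h.1
      · exact h.1
    have hsum' : prob x y + prob y x ≤ 1 := by
      unfold prob
      rw [← add_div]
      apply div_le_one_of_le₀ _ (by positivity)
      exact_mod_cast hsum
    rcases le_total (prob x y) (prob y x) with h | h
    · rw [min_eq_left h]
      linarith
    · rw [min_eq_right h]
      linarith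

end Pool.Agent.Results.MP_c534e4_co.BalancedPairs
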